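import Pool.Agent.X75.ChromH4

/-!
# MP_9dade1_co: symmetric decomposition of the chromatic numerator polynomial

For every finite simple graph `G` on `d ≥ 1` vertices the polynomial `h` with
`∑ χ_G(n) z^n = h(z) / (1 - z)^(d+1)` decomposes as `h = a + z b` with `a` `d`-symmetric and
`b` `(d-1)`-symmetric, and in this (unique) decomposition `b` has nonnegative and `a` has
nonpositive coefficients.
-/

set_option autoImplicit false

namespace Pool.Agent.Results.MP_9dade1_co.SymmetricDecomposition

open Polynomial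

/-- `p` is `m`-symmetric: it has degree at most `m` and `p_i = p_{m-i}` for `0 ≤ i ≤ m`. -/
def MSymmetric (m : ℕ) (p : ℤ[X]) : Prop :=
  p.natDegree ≤ m ∧ ∀ i, i ≤ m → p.coeff i = p.coeff (m - i)

/-- `χ_G(n)`, the number of proper colourings of `G` with the colours `Fin n`. -/
noncomputable def chromaticCount {V : Type*} (G : SimpleGraph V) (n : ℕ) : ℕ :=
  Nat.card (G.Coloring (Fin n))

/-- `h` is the chromatic numerator of `G`:
`h(z) = (1 - z)^(d+1) * ∑_n χ_G(n) z^n` as formal power series, with `d = |V|`. -/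
def IsChromaticNumerator {V : Type*} [Fintype V] (G : SimpleGraph V) (h : ℤ[X]) : Prop :=
  (h : PowerSeries ℤ) = (1 - PowerSeries.X) ^ (Fintype.card V + 1) *
    PowerSeries.mk (fun n => (chromaticCount G n : ℤ))

/-- Uniqueness of the symmetric decomposition. -/
lemma zero_of_decomp (d : ℕ) (α β : ℤ[X]) (hα : MSymmetric (d + 1) α) (hβ : MSymmetric d β)
    (h : α = X * β) : α = 0 := by
  have h0 : α.coeff 0 = 0 := by rw [h]; simp
  have hstep : ∀ i, i ≤ d + 1 → α.coeff i = 0 := by
    intro i
    induction i with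
    | zero => intro _; exact h0
    | succ i ih =>
      intro hi
      have h1 : α.coeff (i + 1) = β.coeff i := by rw [h, coeff_X_mul]
      have h2 : β.coeff i = β.coeff (d - i) := hβ.2 i (by omega)
      have h3 : α.coeff (d - i + 1) = β.coeff (d - i) := by rw [h, coeff_X_mul]
      have h4 : α.coeff i = α.coeff (d + 1 - i) := hα.2 i (by omega)
      have h5 : d + 1 - i = d - i + 1 := by omega
      rw [h5] at h4
      rw [h1, h2, ← h3, ← h4]
      exact ih (by omega)
  ext i
  rcases Nat.lt_or_ge (d + 1) i with hi | hi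
  · rw [coeff_eq_zero_of_natDegree_lt (lt_of_le_of_lt hα.1 hi)]; simp
  · rw [hstep i hi]; simp

/-- **Main result.** For every finite simple graph `G` on `d ≥ 1` vertices there is a polynomial
`h` of degree at most `d` which is the chromatic numerator of `G`; it has a decomposition
`h = a + X b` with `a` `d`-symmetric and `b` `(d-1)`-symmetric; and in every such decomposition
all coefficients of `b` are nonnegative and all coefficients of `a` are nonpositive. -/
theorem result {V : Type*} [Fintype V] [Nonempty V] (G : SimpleGraph V) :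
    ∃ h : ℤ[X], IsChromaticNumerator G h ∧ h.natDegree ≤ Fintype.card V ∧
      (∃ a b : ℤ[X], MSymmetric (Fintype.card V) a ∧ MSymmetric (Fintype.card V - 1) b ∧
        h = a + X * b) ∧
      (∀ a b : ℤ[X], MSymmetric (Fintype.card V) a → MSymmetric (Fintype.card V - 1) b →
        h = a + X * b → (∀ i, 0 ≤ b.coeff i) ∧ (∀ i, a.coeff i ≤ 0)) := by
  obtain ⟨h, a, b, h1, h2, h3, h4, h5, h6, h7⟩ := Pool.Agent.X75.ChromH.main G
  refine ⟨h, h1, h2, ⟨a, b, h4, h5, h3⟩, ?_⟩
  intro a' b' ha' hb' hab
  obtain ⟨d, hd⟩ : ∃ d, Fintype.card V = d + 1 := ⟨Fintype.card V - 1, by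
    have : 0 < Fintype.card V := Fintype.card_pos
    omega⟩
  rw [hd] at ha' hb' h4 h5
  simp only [Nat.add_sub_cancel] at hb' h5
  have hα : MSymmetric (d + 1) (a - a') := by
    refine ⟨(natDegree_sub_le _ _).trans (max_le h4.1 ha'.1), fun i hi => ?_⟩
    rw [coeff_sub, coeff_sub, h4.2 i hi, ha'.2 i hi]
  have hβ : MSymmetric d (b' - b) := by
    refine ⟨(natDegree_sub_le _ _).trans (max_le hb'.1 h5.1), fun i hi => ?_⟩
    rw [coeff_sub, coeff_sub, h5.2 i hi, hb'.2 i hi]
  have hz : a - a' = X * (b' - b) := by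
    have : a + X * b = a' + X * b' := by rw [← h3, ← hab]
    linear_combination this
  have h0 := zero_of_decomp d _ _ hα hβ hz
  have ha : a' = a := (sub_eq_zero.mp h0).symm
  have hb : b' = b := by
    rw [h0] at hz
    have := (mul_eq_zero.mp hz.symm).resolve_left X_ne_zero
    exact sub_eq_zero.mp this
  rw [ha, hb]
  exact ⟨h7, h6⟩

end Pool.Agent.Results.MP_9dade1_co.SymmetricDecomposition
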